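import Pool.Agent.H9.FPT.Main

/-!
# A graded sequence of ideals whose scaled F-pure thresholds do not converge
-/

namespace Pool.Agent.Results.MP_80c6d6_ag.ScaledThresholdsDiverge

open Pool.Agent.H9.FPT Filter Topology
open scoped ENNReal

/-- For every prime `p` there are a Noetherian, F-finite, F-pure ring `R` of characteristic `p` and
a graded sequence `I_1, I_2, …` of ideals of `R`, each meeting the complement of the minimal
primes, with `m · fpt(I_m) = 2` for even `m` and `m · fpt(I_m) = 0` for odd `m`. So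
`m · fpt(I_m)` has no limit in `[0, ∞]`. (In the proof, `R = 𝔽_p[x, y, z]/(xy)`,
`I_m = (z)^{m/2}` for even `m` and `I_m = (z)^{(m+1)/2} (x, y)` for odd `m`.) -/
theorem result (p : ℕ) [Fact p.Prime] :
    ∃ (R : Type) (_ : CommRing R) (I : ℕ → Ideal R), IsFPureRing p R ∧ IsGradedSeq I ∧
      (∀ m : ℕ, 1 ≤ m → (m : ℝ≥0∞) * fpt p (I m) = if Even m then 2 else 0) ∧
      ¬ ∃ L : ℝ≥0∞, Tendsto (fun m : ℕ => (m : ℝ≥0∞) * fpt p (I m)) atTop (𝓝 L) :=
  ⟨Rxyz p, inferInstance, seq p, isFPureRing, isGradedSeq, fun m hm => scaled m hm, not_tendsto⟩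

end Pool.Agent.Results.MP_80c6d6_ag.ScaledThresholdsDiverge
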